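import Pool.Agent.W2helper93.KC.Stm

/-! Piece AUTO of project KC (helper93): the autocorrelation of a subset of a lattice. -/

set_option autoImplicit false

open MeasureTheory Filter Topology
open Pool.Agent.W2helper93.KC

namespace Pool.Agent.W2helper97.KC

lemma nu_nonneg {U : Set ℤ} {ν : ℤ → ℝ} (hF : Freq U ν) (k : ℤ) : 0 ≤ ν k := by
  refine ge_of_tendsto (hF k) ?_
  filter_upwards [eventually_ge_atTop 0] with T hT
  positivity

lemma fin_ball {h : ℝ} (hh : 0 < h) (x r : ℝ) : {k : ℤ | |h * k - x| < r}.Finite := by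
  refine (Set.finite_Icc ⌊(x - r) / h⌋ ⌈(x + r) / h⌉).subset ?_
  intro k hk
  rw [Set.mem_setOf_eq, abs_lt] at hk
  constructor
  · rw [Int.floor_le_iff, div_lt_iff₀ hh]
    nlinarith
  · rw [Int.le_ceil_iff, lt_div_iff₀ hh]
    nlinarith

lemma locfin {h : ℝ} (hh : 0 < h) (ν : ℤ → ℝ) : IsLocallyFiniteMeasure (eta h ν) := by
  refine ⟨fun x => ⟨Metric.ball x 1, Metric.ball_mem_nhds x one_pos, ?_⟩⟩
  unfold eta
  rw [Measure.sum_apply _ measurableSet_ball]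
  have hfin := fin_ball hh x 1
  rw [tsum_eq_sum (s := hfin.toFinset)]
  · refine ENNReal.sum_lt_top.2 fun k _ => ?_
    rw [Measure.smul_apply, smul_eq_mul]
    exact ENNReal.mul_lt_top ENNReal.ofReal_lt_top (measure_lt_top _ _)
  · intro k hk
    have h1 : h * k ∉ Metric.ball x 1 := by
      intro h1
      apply hk
      rw [Set.Finite.mem_toFinset]
      simpa [Metric.mem_ball, Real.dist_eq] using h1
    rw [Measure.smul_apply, Measure.dirac_apply' _ measurableSet_ball,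
      Set.indicator_of_notMem h1, smul_zero]

/-- the pairs of numbers in `U` bounded by `T` -/
def Pr (U : Set ℤ) (T : ℝ) : Set (ℤ × ℤ) := {p | p.1 ∈ U ∧ p.2 ∈ U ∧ |(p.1 : ℝ)| ≤ T ∧ |(p.2 : ℝ)| ≤ T}

lemma pr_fin (U : Set ℤ) (T : ℝ) : (Pr U T).Finite := by
  have h1 : ∀ k : ℤ, |(k : ℝ)| ≤ T → k ∈ Set.Icc (-⌈T⌉) ⌈T⌉ := by
    intro k hk
    rw [abs_le] at hk
    have h2 := Int.le_ceil T
    constructor
    · have : (-⌈T⌉ : ℝ) ≤ k := by linarith
      exact_mod_cast this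
    · have : (k : ℝ) ≤ ⌈T⌉ := by linarith
      exact_mod_cast this
  refine ((Set.finite_Icc (-⌈T⌉) ⌈T⌉).prod (Set.finite_Icc (-⌈T⌉) ⌈T⌉)).subset ?_
  rintro ⟨b, c⟩ ⟨-, -, h3, h4⟩
  exact ⟨h1 b h3, h1 c h4⟩

lemma prs_eq (U : Set ℤ) {h : ℝ} (hh : 0 < h) (T : ℝ) :
    prs {x | ∃ b ∈ U, x = h * b} T =
      (fun p : ℤ × ℤ => ((h * p.1, h * p.2) : ℝ × ℝ)) '' Pr U (T / h) := by
  have h1 : ∀ k : ℤ, |h * (k : ℝ)| ≤ T ↔ |(k : ℝ)| ≤ T / h := by
    intro k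
    rw [abs_mul, abs_of_pos hh, le_div_iff₀ hh, mul_comm]
  ext ⟨x, y⟩
  constructor
  · rintro ⟨⟨b, hb, hx⟩, ⟨c, hc, hy⟩, h2, h3⟩
    simp only at hx hy h2 h3
    subst hx hy
    exact ⟨(b, c), ⟨hb, hc, (h1 b).1 h2, (h1 c).1 h3⟩, rfl⟩
  · rintro ⟨⟨b, c⟩, ⟨hb, hc, h2, h3⟩, h4⟩
    simp only [Prod.mk.injEq] at h4 hb hc h2 h3
    obtain ⟨h5, h6⟩ := h4
    subst h5 h6
    exact ⟨⟨b, hb, rfl⟩, ⟨c, hc, rfl⟩, (h1 b).2 h2, (h1 c).2 h3⟩

open Classical in
lemma card_fib (U : Set ℤ) (T : ℝ) (k : ℤ) :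
    ((pr_fin U T).toFinset.filter fun p => p.1 - p.2 = k).card = (prz U k T).ncard := by
  have h1 : prz U k T =
      ((((pr_fin U T).toFinset.filter fun p => p.1 - p.2 = k).image Prod.snd : Finset ℤ) : Set ℤ) := by
    ext b
    simp only [Finset.coe_image, Finset.coe_filter, Set.Finite.mem_toFinset, Set.mem_image,
      Set.mem_setOf_eq]
    constructor
    · rintro ⟨h1, h2, h3, h4⟩
      exact ⟨(b + k, b), ⟨⟨h2, h1, h4, h3⟩, by simp⟩, rfl⟩
    · rintro ⟨⟨c, b'⟩, ⟨⟨h1, h2, h3, h4⟩, h5⟩, h6⟩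
      simp only at h1 h2 h3 h4 h5 h6
      subst h6
      have h7 : b' + k = c := by omega
      exact ⟨h2, h7 ▸ h1, h4, h7 ▸ h3⟩
  rw [h1, Set.ncard_coe_finset, Finset.card_image_of_injOn]
  rintro ⟨c, b⟩ hp ⟨c', b'⟩ hp' h2
  simp only [Finset.coe_filter, Set.mem_setOf_eq] at hp hp' h2
  rw [Prod.mk.injEq]
  omega

lemma sum_pairs (U : Set ℤ) {h : ℝ} (hh : 0 < h) (T : ℝ) (f : ℝ → ℝ) (K : Finset ℤ)
    (hK : ∀ k : ℤ, k ∉ K → f (h * k) = 0) :
    ∑ᶠ z ∈ prs {x | ∃ b ∈ U, x = h * b} T, f (z.1 - z.2) =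
      ∑ k ∈ K, f (h * k) * ((prz U k (T / h)).ncard : ℝ) := by
  classical
  have hinj : Set.InjOn (fun p : ℤ × ℤ => ((h * p.1, h * p.2) : ℝ × ℝ)) (Pr U (T / h)) := by
    rintro ⟨a, b⟩ - ⟨c, d⟩ - h1
    simp only [Prod.mk.injEq] at h1 ⊢
    obtain ⟨h2, h3⟩ := h1
    exact ⟨by exact_mod_cast mul_left_cancel₀ hh.ne' h2, by exact_mod_cast mul_left_cancel₀ hh.ne' h3⟩
  rw [prs_eq U hh, finsum_mem_image hinj,
    finsum_mem_eq_finite_toFinset_sum _ (pr_fin U (T / h))]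
  have h1 : ∀ p ∈ (pr_fin U (T / h)).toFinset, f (h * (p.1 : ℝ) - h * (p.2 : ℝ)) =
      ∑ k ∈ K, if p.1 - p.2 = k then f (h * k) else 0 := by
    intro p _
    have h2 : h * (p.1 : ℝ) - h * (p.2 : ℝ) = h * ((p.1 - p.2 : ℤ) : ℝ) := by push_cast; ring
    rw [h2, Finset.sum_ite_eq]
    split_ifs with h3
    · rfl
    · exact hK _ h3
  rw [Finset.sum_congr rfl h1, Finset.sum_comm]
  refine Finset.sum_congr rfl fun k _ => ?_
  rw [← card_fib U (T / h) k, ← Finset.sum_filter, Finset.sum_const, nsmul_eq_mul, mul_comm]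

theorem p_auto : P_AUTO := by
  intro U ν h hh hF
  have hlf := locfin hh ν
  refine ⟨hlf, fun f hf hc => ?_⟩
  obtain ⟨K, hK⟩ : ∃ K : Finset ℤ, ∀ k : ℤ, k ∉ K → f (h * k) = 0 := by
    obtain ⟨R, hR⟩ := hc.isCompact.isBounded.subset_closedBall (0 : ℝ)
    refine ⟨(fin_ball hh 0 (R + 1)).toFinset, fun k hk => ?_⟩
    apply image_eq_zero_of_notMem_tsupport
    intro h1
    apply hk
    have h2 := hR h1
    rw [Metric.mem_closedBall, Real.dist_eq, sub_zero] at h2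
    rw [Set.Finite.mem_toFinset, Set.mem_setOf_eq, sub_zero]
    linarith
  have hint : ∫ x, f x ∂(eta h ν) = ∑ k ∈ K, f (h * k) * (ν k / h) := by
    have hi : Integrable f (eta h ν) := hf.integrable_of_hasCompactSupport hc
    unfold eta at hi ⊢
    rw [integral_sum_measure hi, tsum_eq_sum (s := K)]
    · refine Finset.sum_congr rfl fun k _ => ?_
      rw [integral_smul_measure, integral_dirac, ENNReal.toReal_ofReal
        (div_nonneg (nu_nonneg hF k) hh.le), smul_eq_mul, mul_comm]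
    · intro k hk
      rw [integral_smul_measure, integral_dirac, hK k hk, smul_zero]
  rw [hint]
  have h1 : ∀ T : ℝ, (∑ᶠ z ∈ prs {x | ∃ b ∈ U, x = h * b} T, f (z.1 - z.2)) / (2 * T) =
      ∑ k ∈ K, f (h * k) * ((((prz U k (T / h)).ncard : ℝ) / (2 * (T / h))) / h) := by
    intro T
    rw [sum_pairs U hh T f K hK, Finset.sum_div]
    refine Finset.sum_congr rfl fun k _ => ?_
    have : 2 * (T / h) * h = 2 * T := by field_simp
    rw [div_div, this, mul_div_assoc]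
  simp only [h1]
  refine tendsto_finset_sum _ fun k _ => ?_
  refine Tendsto.const_mul _ (Tendsto.div_const ?_ _)
  exact (hF k).comp (tendsto_id.atTop_div_const hh)

end Pool.Agent.W2helper97.KC
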